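import Pool.Agent.Helper43.AXI.Fin

/-!
# Axisymmetric solutions with swirl: a singularity needs fast inflow at points with swirl

`V = Fin 3 → ℝ`; the third coordinate axis is the axis of symmetry, `ρ² = sg x = x₀² + x₁²`,
`circ v = x₀ v₁ - x₁ v₀ = ρ v_θ` is the circulation (swirl), `rad v = x₀ v₀ + x₁ v₁ = ρ v_ρ`, and
`vort v` is the curl.

Let `u` be a smooth solution of the Navier-Stokes equations with viscosity `ν` on the time interval
`(0, T)` which is axisymmetric (with arbitrary swirl) near a point `a` of the axis, and suppose that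
`u` is unbounded near `(T, a)`. Then for every `α > 3 / 2`, every `0 ≤ c < 1 / 2`, every integrable
continuous function `B` and every constant `C` there are times `t` arbitrarily close to `T` and
points `x` arbitrarily close to `a`, at distance `ρ < (ν (T - t)) ^ c` from the axis, with
`l = log ((ν (T - t)) ^ (2 c) / ρ²)`, at which all of the following hold:

* the circulation is not too small, `|circ u| > C l ^ (-α)`;
* the radial component of the vorticity vanishes and `circ u` and the axial component of the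
  vorticity have the same sign;
* the fluid flows fast towards the axis, `ρ u_ρ < ν (-2 + 2 (α + 1) / l) - (c / (T - t) + B t) ρ²`.

So a bound from below for the radial velocity alone, at these points alone, excludes a singularity.
In the whole space a solution which is unbounded near the time `T` has such a point `a`.
-/

set_option autoImplicit false

open MeasureTheory Set Metric

namespace Pool.Agent.Results.MP_6bf1e5_an.AxisInflow

open H459R3.NS Pool.Agent.W268.NS Pool.Agent.Q85.CL Pool.Agent.TH305.AX Pool.Agent.Q67.AXI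

/-- Strong inflow at points with swirl near the point `a` of the axis and near the time `T`. -/
def StrongInflow (ν T : ℝ) (u : ℝ → V → V) (a : V) : Prop :=
  ∀ (B : ℝ → ℝ) (c α C T₀ R : ℝ), ContinuousOn B (Ioo 0 T) → IntegrableOn B (Ioo 0 T) →
    0 ≤ c → c < 1 / 2 → 3 / 2 < α → 0 ≤ C → T₀ < T → 0 < R →
      ∃ t ∈ Ioo 0 T, T₀ < t ∧ ∃ x : V, ‖x - a‖ ≤ R ∧ 0 < sg x ∧
        sg x < (ν * (T - t)) ^ (2 * c) ∧
        C * Real.log ((ν * (T - t)) ^ (2 * c) / sg x) ^ (-α) < |circ (u t) x| ∧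
        rad (vort (u t)) x = 0 ∧ 0 < circ (u t) x * vort (u t) x 2 ∧
        rad (u t) x < ν * (-2 + 2 * (α + 1) / Real.log ((ν * (T - t)) ^ (2 * c) / sg x))
          - (c / (T - t) + B t) * sg x

theorem result {ν T : ℝ} {u : ℝ → V → V} {p : ℝ → V → ℝ} (hν : 0 < ν) :
    (∀ (E : ℝ) (Ω : Set V), DSl ν T E Ω u p →
      (∀ t ∈ Ioo 0 T, ∀ (θ : ℝ), ∀ x ∈ Ω, rot θ x ∈ Ω → u t (rot θ x) = rot θ (u t x)) →
      ∀ a ∈ Ω, a 0 = 0 → a 1 = 0 → Sing T u a → StrongInflow ν T u a) ∧
    ∀ E : ℝ, WSl ν T E u p → (∀ t ∈ Ioo 0 T, Axi (u t)) → Blow T u →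
      ∃ a : V, a 0 = 0 ∧ a 1 = 0 ∧ Sing T u a ∧ StrongInflow ν T u a := by
  have loc : ∀ (E : ℝ) (Ω : Set V), DSl ν T E Ω u p →
      (∀ t ∈ Ioo 0 T, ∀ (θ : ℝ), ∀ x ∈ Ω, rot θ x ∈ Ω → u t (rot θ x) = rot θ (u t x)) →
      ∀ a ∈ Ω, a 0 = 0 → a 1 = 0 → Sing T u a → StrongInflow ν T u a :=
    fun E Ω h hax a ha h0 h1 hs => Pool.Agent.Helper43.AXI.infl_D2 hν h hax ha h0 h1 hs
  refine ⟨loc, fun E h hax hB => ?_⟩
  obtain ⟨a, ha⟩ := Pool.Agent.Helper43.AXI.sing_W hν h hB
  obtain ⟨h0, h1⟩ := Pool.Agent.Helper43.AXI.axis_W hν h hax ha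
  exact ⟨a, h0, h1, ha, loc E (ball a (1 / 2)) (whole_D h a)
    (fun t ht θ x _ _ => hax t ht θ x) a (mem_ball_self (by norm_num)) h0 h1 ha⟩

end Pool.Agent.Results.MP_6bf1e5_an.AxisInflow
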